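import Pool.Agent.V11288.LZ.Val

/-!
# Deligne's conjecture as the rationality of limits of explicit sums over primes

Let `M` be a motive over `ℚ` with coefficients in a number field `F`, of rank `d` and weight `w` (for example
odd), and `m` an integer (for example critical for `M`).  For every prime `p` choose a matrix `Φ_p ∈ M_d(F)` with
`det(1 - X Φ_p) = det(1 - X Frob_p | M_λ^{I_p}) ∈ F[X]` (geometric Frobenius; at the bad primes filled up with
zeros).  Its eigenvalues under every embedding `τ : F → ℂ` have absolute value at most `p^{w/2}` (Deligne), and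
this is all that is used (`WeightAtMost`).  The components `L_τ(s)` of the `F ⊗ ℂ`-valued function `L(M, s)` are
the Euler products of `det(1 - p^{-s} τ(Φ_p))⁻¹` for `Re s > w/2 + 1`; we assume that they are meromorphic at
the points of the real interval `[m, w/2 + 1]` and holomorphic at `m` (`IsLFunction`).  Deligne's conjecture for
`M` and `m` says that there is an `x ∈ F` with `L_τ(m) = c_τ τ(x)` for all `τ`, where `(c_τ)` is the period
`c^+(M, m) ∈ (F ⊗ ℂ)^×`.

Let `γ > π/2` be real and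

`W_τ(X) = ∑_p ∑_{k ≥ 1} τ(tr Φ_p^k) / (k p^{km}) · e^{iγu} / Γ(1 + u)`,  `u = k log p / log X`,

an absolutely convergent series.  We show, without any hypothesis on the zeros of the `L_τ`:

1. `exp W_τ(X) = L_τ(m) + O(1/log X)` for `X → ∞`, for all `τ` (also if `L_τ(m) = 0`).

2. For all nonzero numbers `c_τ` and every `b ∈ F` the limit

   `ξ_b = lim_{X → ∞} ∑_τ τ(b) exp W_τ(X) / c_τ`

   exists, and there is an `x ∈ F` with `L_τ(m) = c_τ τ(x)` for all `τ` IF AND ONLY IF all the numbers `ξ_b`,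
   `b ∈ F`, are rational.  (It is enough to consider the `b` in a basis of `F`.)  In this case
   `ξ_b = tr_{F/ℚ}(b x)`.

So Deligne's conjecture for `M` and `m` says that `[F : ℚ]` explicit limits of sums over primes, formed with the
traces of Frobenius and the period, are rational numbers.

Proof.  1: the law for rotated Mittag-Leffler sums (`Pool.Agent.V11290.UL`, real coefficients, central points),
extended to complex coefficients and all real points in `Pool.Agent.V11288.LZ` (see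
`MP_46b841_nt.LeadingTermsByPrimes`, `MP_100fe7_nt.ValuesByPrimes`), here with an error term.  2: the trace form
of `F` is nondegenerate and the embeddings of `F` are linearly independent.
-/

set_option autoImplicit false

namespace Pool.Agent.Results.MP_cd171c_nt.RationalLimits

open Filter Topology Set

variable {F : Type} [Field F] [NumberField F] {d : ℕ}

/-- The eigenvalues of all `Φ_p` under all embeddings of `F` have absolute value at most `p^{w/2}`. -/
def WeightAtMost (w : ℤ) (Φ : Nat.Primes → Matrix (Fin d) (Fin d) F) : Prop :=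
  ∀ (τ : F →+* ℂ) (p : Nat.Primes), ∀ z ∈ ((Φ p).map τ).charpoly.roots, ‖z‖ ≤ (p : ℝ) ^ ((w : ℝ) / 2)

/-- `Λ` is the component `L_τ` of `L(M, s)`: the Euler product of `det(1 - p^{-s} τ(Φ_p))⁻¹` for
`Re s > w/2 + 1`, meromorphic at the points of the real interval `[m, w/2 + 1]`, holomorphic at `m`. -/
structure IsLFunction (w : ℤ) (Φ : Nat.Primes → Matrix (Fin d) (Fin d) F) (m : ℤ) (τ : F →+* ℂ)
    (Λ : ℂ → ℂ) : Prop where
  mero : ∀ x ∈ Icc (m : ℝ) ((w : ℝ) / 2 + 1), MeromorphicAt Λ (x : ℂ)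
  hol : AnalyticAt ℂ Λ (m : ℂ)
  prod : ∀ s : ℂ, (w : ℝ) / 2 + 1 < s.re →
    Λ s = ∏' p : Nat.Primes, ((1 - (p : ℂ) ^ (-s) • (Φ p).map τ).det)⁻¹

/-- The weight `e^{iγu} / Γ(1 + u)`. -/
noncomputable def weight (γ u : ℝ) : ℂ :=
  Complex.exp ((γ * u : ℝ) * Complex.I) / (Real.Gamma (1 + u) : ℂ)

/-- The term of `W_τ(X)` at `(p, k)`: `τ(tr Φ_p^k)/(k p^{km})` times the weight at `u = k log p / log X`. -/
noncomputable def term (Φ : Nat.Primes → Matrix (Fin d) (Fin d) F) (m : ℤ) (τ : F →+* ℂ) (γ X : ℝ)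
    (p : Nat.Primes) (k : ℕ) : ℂ :=
  τ (Φ p ^ k).trace / (k * (p : ℂ) ^ (k * m)) * weight γ (k * Real.log p / Real.log X)

/-- `W_τ(X)`, the sum over the primes `p` and `k ≥ 1` (here `k = x.2 + 1`). -/
noncomputable def W (Φ : Nat.Primes → Matrix (Fin d) (Fin d) F) (m : ℤ) (τ : F →+* ℂ) (γ X : ℝ) : ℂ :=
  ∑' x : Nat.Primes × ℕ, term Φ m τ γ X x.1 (x.2 + 1)

/-- `∑_τ τ(b) exp W_τ(X) / c_τ`. -/
noncomputable def combination (Φ : Nat.Primes → Matrix (Fin d) (Fin d) F) (m : ℤ) (γ : ℝ)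
    (c : (F →+* ℂ) → ℂ) (b : F) (X : ℝ) : ℂ :=
  ∑ τ : F →+* ℂ, τ b * (Complex.exp (W Φ m τ γ X) / c τ)

open Pool.Agent.V11288.LZ

variable {w m : ℤ} {Φ : Nat.Primes → Matrix (Fin d) (Fin d) F} {γ : ℝ}

theorem eul (hF : WeightAtMost w Φ) (τ : F →+* ℂ) :
    Eul 1 ((w : ℝ) / 2) (fun p : Nat.Primes => (p : ℝ)) (fun p => (Φ p).map τ) :=
  ⟨le_rfl, fun p => by exact_mod_cast p.2.two_le,
    fun _ hx => Nat.Primes.summable_rpow.2 (by linarith), hF τ⟩

theorem trace_map (τ : F →+* ℂ) (M : Matrix (Fin d) (Fin d) F) (k : ℕ) :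
    (M.map τ ^ k).trace = τ (M ^ k).trace := by
  have h1 : M.map τ ^ k = (M ^ k).map τ := by
    rw [← RingHom.mapMatrix_apply, ← RingHom.mapMatrix_apply, map_pow]
  rw [h1]
  simp [Matrix.trace, map_sum]

theorem term_eq (τ : F →+* ℂ) (X : ℝ) (x : Nat.Primes × ℕ) :
    tm (fun p : Nat.Primes => (p : ℝ)) (fun p => (Φ p).map τ) m γ X x =
      term Φ m τ γ X x.1 (x.2 + 1) := by
  unfold tm term weight wt
  rw [trace_map, Real.rpow_intCast]
  have h0 : ((((x.1 : ℕ) : ℝ) ^ m : ℝ) : ℂ) ^ (x.2 + 1) = ((x.1 : ℕ) : ℂ) ^ (((x.2 + 1 : ℕ) : ℤ) * m) := by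
    push_cast
    rw [mul_comm, zpow_mul]
    norm_cast
  rw [h0]

theorem W_eq (τ : F →+* ℂ) (X : ℝ) :
    tot (fun p : Nat.Primes => (p : ℝ)) (fun p => (Φ p).map τ) m γ X = W Φ m τ γ X :=
  tsum_congr fun x => term_eq τ X x

/-- **Deligne's conjecture as the rationality of limits of sums over primes.** -/
theorem result (w m : ℤ) (Φ : Nat.Primes → Matrix (Fin d) (Fin d) F) (hΦ : WeightAtMost w Φ)
    (L : (F →+* ℂ) → ℂ → ℂ) (hL : ∀ τ, IsLFunction w Φ m τ (L τ)) (γ : ℝ) (hγ : Real.pi / 2 < γ) :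
    (∀ (τ : F →+* ℂ) (X : ℝ), 1 < X →
      Summable fun x : Nat.Primes × ℕ => ‖term Φ m τ γ X x.1 (x.2 + 1)‖) ∧
    (∀ τ : F →+* ℂ, (fun X : ℝ => Complex.exp (W Φ m τ γ X) - L τ m) =O[atTop]
      (fun X : ℝ => 1 / Real.log X)) ∧
    ∀ c : (F →+* ℂ) → ℂ, (∀ τ, c τ ≠ 0) →
      (∀ b : F, ∃ ξ : ℂ, Tendsto (combination Φ m γ c b) atTop (𝓝 ξ)) ∧
      ((∃ x : F, ∀ τ, L τ m = c τ * τ x) ↔
        ∀ b : F, ∃ y : ℚ, Tendsto (combination Φ m γ c b) atTop (𝓝 (y : ℂ))) ∧
      ∀ x : F, (∀ τ, L τ m = c τ * τ x) →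
        ∀ b : F, Tendsto (combination Φ m γ c b) atTop (𝓝 ((Algebra.trace ℚ F (b * x) : ℚ) : ℂ)) := by
  have hcast : ((m : ℝ) : ℂ) = (m : ℂ) := by push_cast; rfl
  have hm : ∀ τ, ∀ x ∈ Icc (m : ℝ) (1 + (w : ℝ) / 2), MeromorphicAt (L τ) (x : ℂ) :=
    fun τ x hx => (hL τ).mero x ⟨hx.1, by linarith [hx.2]⟩
  have hp : ∀ τ, ∀ s : ℂ, 1 + (w : ℝ) / 2 < s.re →
      L τ s = ∏' p : Nat.Primes, ((1 - (p : ℂ) ^ (-s) • (Φ p).map τ).det)⁻¹ :=
    fun τ s hs => (hL τ).prod s (by linarith)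
  have hrate : ∀ τ : F →+* ℂ, (fun X : ℝ => Complex.exp (W Φ m τ γ X) - L τ m) =O[atTop]
      (fun X : ℝ => 1 / Real.log X) := by
    intro τ
    have h := (eul hΦ τ).rate (L := L τ) (m : ℝ) (hm τ) (by rw [hcast]; exact (hL τ).hol) (hp τ) hγ
    rw [hcast] at h
    refine h.congr_left fun X => ?_
    rw [W_eq]
  have hlim : ∀ τ : F →+* ℂ, Tendsto (fun X : ℝ => Complex.exp (W Φ m τ γ X)) atTop (𝓝 (L τ m)) := by
    intro τ
    have h1 : Tendsto (fun X : ℝ => Complex.exp (W Φ m τ γ X) - L τ m) atTop (𝓝 0) :=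
      (hrate τ).trans_tendsto (tendsto_const_nhds.div_atTop Real.tendsto_log_atTop)
    have h2 := h1.add_const (L τ m)
    simpa using h2
  refine ⟨fun τ X hX => ?_, hrate, fun c hc => ?_⟩
  · refine (((eul hΦ τ).final' (L := L τ) (m : ℝ) (hm τ) (hp τ) hγ).1 X hX).congr fun x => ?_
    rw [term_eq]
  · have hcomb : ∀ b : F, Tendsto (combination Φ m γ c b) atTop
        (𝓝 (∑ τ : F →+* ℂ, τ b * (L τ m / c τ))) := by
      intro b
      unfold combination
      exact tendsto_finsetSum _ fun τ _ => ((hlim τ).div_const (c τ)).const_mul (τ b)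
    have hdiv : ∀ (x : F) (τ : F →+* ℂ), L τ m = c τ * τ x ↔ L τ m / c τ = τ x := by
      intro x τ
      rw [div_eq_iff (hc τ), mul_comm]
    have htr : ∀ x : F, ∑ τ : F →+* ℂ, τ x = ((Algebra.trace ℚ F x : ℚ) : ℂ) := by
      intro x
      have h1 := trace_eq_sum_embeddings (K := ℚ) (L := F) ℂ (x := x)
      rw [eq_ratCast] at h1
      rw [h1]
      exact Fintype.sum_equiv (RingHom.equivRatAlgHom F ℂ) _ _ fun τ => rfl
    refine ⟨fun b => ⟨_, hcomb b⟩, ?_, fun x hx b => ?_⟩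
    · simp only [hdiv]
      rw [conj_iff (fun τ => L τ m / c τ)]
      refine forall_congr' fun b => exists_congr fun y => ⟨fun h => ?_, fun h => ?_⟩
      · rw [← h]
        exact hcomb b
      · exact tendsto_nhds_unique (hcomb b) h
    · rw [← htr]
      have h1 : ∑ τ : F →+* ℂ, τ (b * x) = ∑ τ : F →+* ℂ, τ b * (L τ m / c τ) := by
        refine Finset.sum_congr rfl fun τ _ => ?_
        rw [(hdiv x τ).1 (hx τ), map_mul]
      rw [h1]
      exact hcomb b

end Pool.Agent.Results.MP_cd171c_nt.RationalLimits
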